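import Pool.Agent.W661.RC.Stm

/-!
# RC-POL, part 1: polar decomposition between two projections
-/

set_option autoImplicit false

namespace Pool.Agent.W494.RC

open Matrix Pool.Agent.W661.RC
open scoped ComplexOrder

lemma tr_eq_finrank {d : ℕ} (q : Mt d) (hq : IsPr q) :
    tr q = (Module.finrank ℂ (LinearMap.range (toEuclideanLin q)) : ℝ) := by
  have hid : IsIdempotentElem (toEuclideanLin q : EuclideanSpace ℂ (Fin d) →ₗ[ℂ] EuclideanSpace ℂ (Fin d)) := by
    unfold IsIdempotentElem
    refine LinearMap.ext fun v => ?_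
    rw [Module.End.mul_apply]
    rw [toLpLin_apply, toLpLin_apply]
    simp only [mulVec_mulVec, hq.2]
  have hpr := (LinearMap.isProj_range_iff_isIdempotentElem _).2 hid
  have h1 := hpr.trace
  have h2 : (LinearMap.trace ℂ (EuclideanSpace ℂ (Fin d))) (toEuclideanLin q) = Matrix.trace q := by
    rw [toEuclideanLin_eq_toLin_orthonormal,
      LinearMap.trace_eq_matrix_trace ℂ (EuclideanSpace.basisFun (Fin d) ℂ).toBasis,
      LinearMap.toMatrix_toLin]
  rw [h2] at h1
  unfold tr
  rw [h1]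
  simp

lemma ext_cols {d : ℕ} (q' y : Mt d) (hq : IsPr q') (lam : Fin d → ℝ) (hl : ∀ i, 0 ≤ lam i)
    (hy : yᴴ * y = Matrix.diagonal (fun i => (lam i : ℂ))) (A : Finset (Fin d))
    (hA : ∀ i, lam i ≠ 0 → i ∈ A) (hc : (A.card : ℝ) ≤ tr q') (hqy : q' * y = y) :
    ∃ W : Mt d, Wᴴ * W = Matrix.diagonal (fun i => if i ∈ A then (1 : ℂ) else 0) ∧ q' * W = W ∧
      W * Matrix.diagonal (fun i => ((Real.sqrt (lam i) : ℝ) : ℂ)) = y := by
  classical
  set E := EuclideanSpace ℂ (Fin d) with hE
  set T : E →ₗ[ℂ] E := toEuclideanLin q' with hT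
  set F : Submodule ℂ E := LinearMap.range T with hF
  set n0 := Module.finrank ℂ F with hn0
  have hcard : A.card ≤ n0 := by
    have := tr_eq_finrank q' hq
    rw [this] at hc
    exact_mod_cast hc
  have hn0d : n0 ≤ (Finset.univ : Finset (Fin d)).card := by
    rw [Finset.card_univ, Fintype.card_fin]
    have := Submodule.finrank_le F
    rwa [finrank_euclideanSpace, Fintype.card_fin] at this
  obtain ⟨A', hAA', -, hA'⟩ := Finset.exists_subsuperset_card_eq (Finset.subset_univ A) hcard hn0d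
  -- columns
  let col : Mt d → Fin d → E := fun z i => WithLp.toLp 2 (fun k => z k i)
  have hinner : ∀ (z : Mt d) (i j : Fin d), inner ℂ (col z i) (col z j) = (zᴴ * z) i j := by
    intro z i j
    rw [EuclideanSpace.inner_eq_star_dotProduct, Matrix.mul_apply]
    simp only [dotProduct, col, Matrix.conjTranspose_apply, Pi.star_apply]
    exact Finset.sum_congr rfl fun k _ => mul_comm _ _
  have hcolT : ∀ (z : Mt d) (i : Fin d), T (col z i) = col (q' * z) i := by
    intro z i
    rw [hT, toLpLin_apply]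
    rfl
  have hmem : ∀ i, col y i ∈ F := by
    intro i
    rw [hF, LinearMap.mem_range]
    exact ⟨col y i, by rw [hcolT, hqy]⟩
  have hFT : ∀ v ∈ F, T v = v := by
    intro v hv
    obtain ⟨u, hu⟩ := LinearMap.mem_range.1 hv
    rw [← hu, hT, toLpLin_apply, toLpLin_apply]
    simp only [mulVec_mulVec, hq.2]
  let w : {i // i ∈ A'} → F := fun i =>
    ⟨(((Real.sqrt (lam i.1))⁻¹ : ℝ) : ℂ) • col y i.1, F.smul_mem _ (hmem i.1)⟩
  have hw : Orthonormal ℂ (Set.domRestrict {i : {i // i ∈ A'} | lam i.1 ≠ 0} w) := by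
    rw [orthonormal_iff_ite]
    rintro ⟨⟨i, hi⟩, hi'⟩ ⟨⟨j, hj⟩, hj'⟩
    have h1 : inner ℂ (w ⟨i, hi⟩) (w ⟨j, hj⟩) =
        (((Real.sqrt (lam i))⁻¹ : ℝ) : ℂ) * (((Real.sqrt (lam j))⁻¹ : ℝ) : ℂ) *
          (Matrix.diagonal (fun i => (lam i : ℂ)) i j) := by
      rw [Submodule.coe_inner]
      simp only [w]
      rw [inner_smul_left, inner_smul_right, hinner, hy, Complex.conj_ofReal, mul_assoc]
    have h2 : Set.domRestrict {i : {i // i ∈ A'} | lam i.1 ≠ 0} w ⟨⟨i, hi⟩, hi'⟩ = w ⟨i, hi⟩ := rfl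
    have h3 : Set.domRestrict {i : {i // i ∈ A'} | lam i.1 ≠ 0} w ⟨⟨j, hj⟩, hj'⟩ = w ⟨j, hj⟩ := rfl
    rw [h2, h3, h1]
    by_cases hij : i = j
    · subst hij
      rw [if_pos rfl, Matrix.diagonal_apply_eq]
      have h4 : lam i ≠ 0 := hi'
      have h5 : Real.sqrt (lam i) ≠ 0 := by
        intro h
        exact h4 ((Real.sqrt_eq_zero (hl i)).1 h)
      have h6 : (Real.sqrt (lam i))⁻¹ * (Real.sqrt (lam i))⁻¹ * lam i = 1 := by
        nth_rewrite 3 [← Real.mul_self_sqrt (hl i)]
        field_simp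
      exact_mod_cast h6
    · rw [if_neg (by
        intro h
        apply hij
        have := congrArg (fun x => x.1.1) h
        exact this), Matrix.diagonal_apply_ne _ hij, mul_zero]
  obtain ⟨b, hb⟩ := hw.exists_orthonormalBasis_extension_of_card_eq (ι := {i // i ∈ A'})
    (by rw [Fintype.card_coe, hA'])
  -- the matrix
  let W : Mt d := fun k i => if h : i ∈ A then ((b ⟨i, hAA' h⟩ : F) : E) k else 0
  have hcolW : ∀ i (h : i ∈ A), col W i = ((b ⟨i, hAA' h⟩ : F) : E) := by
    intro i h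
    simp only [col, W, dif_pos h]
    rfl
  have hcolW0 : ∀ i (_ : i ∉ A), col W i = 0 := by
    intro i h
    simp only [col, W, dif_neg h]
    rfl
  refine ⟨W, ?_, ?_, ?_⟩
  · ext i j
    rw [← hinner]
    by_cases hi : i ∈ A
    · by_cases hj : j ∈ A
      · rw [hcolW i hi, hcolW j hj, ← Submodule.coe_inner]
        have := (orthonormal_iff_ite.1 b.orthonormal) ⟨i, hAA' hi⟩ ⟨j, hAA' hj⟩
        rw [this]
        by_cases hij : i = j
        · subst hij
          simp [hi]
        · rw [if_neg (by simpa using hij), Matrix.diagonal_apply_ne _ hij]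
      · rw [hcolW0 j hj, inner_zero_right]
        have hij : i ≠ j := by rintro rfl; exact hj hi
        rw [Matrix.diagonal_apply_ne _ hij]
    · rw [hcolW0 i hi, inner_zero_left]
      by_cases hij : i = j
      · subst hij
        simp [hi]
      · rw [Matrix.diagonal_apply_ne _ hij]
  · have h1 : ∀ i, col (q' * W) i = col W i := by
      intro i
      rw [← hcolT]
      by_cases hi : i ∈ A
      · rw [hcolW i hi]
        exact hFT _ (b ⟨i, hAA' hi⟩).2
      · rw [hcolW0 i hi, map_zero]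
    ext k i
    have := congrArg (fun v : E => v k) (h1 i)
    exact this
  · ext k i
    rw [Matrix.mul_diagonal]
    by_cases hi0 : lam i = 0
    · have h1 : col y i = 0 := by
        rw [← inner_self_eq_zero (𝕜 := ℂ), hinner, hy, Matrix.diagonal_apply_eq, hi0]
        simp
      have h2 := congrArg (fun v : E => v k) h1
      have h3 : y k i = 0 := h2
      rw [hi0, h3]
      simp
    · have hiA := hA i hi0
      have h1 : b ⟨i, hAA' hiA⟩ = w ⟨i, hAA' hiA⟩ := hb _ hi0
      have h2 : W k i = ((((Real.sqrt (lam i))⁻¹ : ℝ) : ℂ) • col y i) k := by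
        have h3 := congrArg (fun v : E => v k) (hcolW i hiA)
        rw [h1] at h3
        exact h3
      rw [h2]
      have h5 : Real.sqrt (lam i) ≠ 0 := by
        intro h
        exact hi0 ((Real.sqrt_eq_zero (hl i)).1 h)
      have h6 : ((((Real.sqrt (lam i))⁻¹ : ℝ) : ℂ) • col y i) k =
          (((Real.sqrt (lam i))⁻¹ : ℝ) : ℂ) * y k i := rfl
      rw [h6]
      push_cast
      have h7 : ((Real.sqrt (lam i) : ℝ) : ℂ) ≠ 0 := by exact_mod_cast h5
      field_simp

end Pool.Agent.W494.RC
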