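import Pool.Agent.W494.RC.Polar

/-!
# RC-POL: near-intertwiners are near multiples of isometries
-/

set_option autoImplicit false

namespace Pool.Agent.W494.RC

open Matrix Pool.Agent.W661.RC
open scoped ComplexOrder

section basics

variable {d : ℕ}

lemma tr_comm (x y : Mt d) : tr (x * y) = tr (y * x) := by
  unfold tr; rw [Matrix.trace_mul_comm]

lemma tr_star (x : Mt d) : tr xᴴ = tr x := by
  unfold tr; rw [Matrix.trace_conjTranspose]; exact Complex.conj_re _

lemma tr_add (x y : Mt d) : tr (x + y) = tr x + tr y := by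
  unfold tr; rw [Matrix.trace_add, Complex.add_re]

lemma tr_sub (x y : Mt d) : tr (x - y) = tr x - tr y := by
  unfold tr; rw [Matrix.trace_sub, Complex.sub_re]

lemma tr_smul (c : ℝ) (x : Mt d) : tr ((c : ℂ) • x) = c * tr x := by
  unfold tr; rw [Matrix.trace_smul, smul_eq_mul, Complex.re_ofReal_mul]

lemma hs_eq (x : Mt d) : hs x = tr (xᴴ * x) := by
  unfold hs tr Matrix.trace
  rw [Complex.re_sum, Finset.sum_comm]
  apply Finset.sum_congr rfl
  intro j _
  rw [Matrix.diag_apply, Matrix.mul_apply, Complex.re_sum]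
  apply Finset.sum_congr rfl
  intro i _
  rw [Matrix.conjTranspose_apply]
  have h : star (x i j) * x i j = ((Complex.normSq (x i j) : ℝ) : ℂ) := by
    rw [Complex.normSq_eq_conj_mul_self]; rfl
  rw [h, Complex.ofReal_re, Complex.normSq_eq_norm_sq]

lemma hs_nonneg (x : Mt d) : 0 ≤ hs x := by
  unfold hs
  exact Finset.sum_nonneg fun i _ => Finset.sum_nonneg fun j _ => by positivity

lemma hs_sub (x y : Mt d) : hs (x - y) = hs x + hs y - 2 * tr (xᴴ * y) := by
  rw [hs_eq, hs_eq, hs_eq, Matrix.conjTranspose_sub, Matrix.sub_mul, Matrix.mul_sub,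
    Matrix.mul_sub, tr_sub, tr_sub, tr_sub]
  have : tr (yᴴ * x) = tr (xᴴ * y) := by
    rw [← tr_star (yᴴ * x), Matrix.conjTranspose_mul, Matrix.conjTranspose_conjTranspose]
  rw [this]
  ring

lemma hs_smul (c : ℂ) (x : Mt d) : hs (c • x) = ‖c‖ ^ 2 * hs x := by
  unfold hs
  rw [Finset.mul_sum]
  apply Finset.sum_congr rfl
  intro i _
  rw [Finset.mul_sum]
  apply Finset.sum_congr rfl
  intro j _
  rw [Matrix.smul_apply, smul_eq_mul, norm_mul, mul_pow]

lemma hs_neg (x : Mt d) : hs (-x) = hs x := by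
  have := hs_smul (-1) x
  simpa using this

lemma hs_add_le (x y : Mt d) : hs (x + y) ≤ 2 * hs x + 2 * hs y := by
  have h1 := hs_sub x y
  have h2 := hs_sub x (-y)
  rw [sub_neg_eq_add, hs_neg, Matrix.mul_neg] at h2
  have h3 : tr (-(xᴴ * y)) = - tr (xᴴ * y) := by
    have := tr_smul (-1) (xᴴ * y)
    simpa using this
  rw [h3] at h2
  have h4 := hs_nonneg (x - y)
  linarith

lemma hs_pos {x : Mt d} (hx : x ≠ 0) : 0 < hs x := by
  rcases (hs_nonneg x).lt_or_eq with h | h
  · exact h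
  · exfalso
    apply hx
    have h0 := h.symm
    unfold hs at h0
    ext i j
    have h1 := (Finset.sum_eq_zero_iff_of_nonneg (fun i _ =>
      Finset.sum_nonneg fun j _ => by positivity)).1 h0 i (Finset.mem_univ i)
    have h2 := (Finset.sum_eq_zero_iff_of_nonneg (fun j _ => by positivity)).1 h1 j
      (Finset.mem_univ j)
    have h3 : ‖x i j‖ = 0 := by
      exact pow_eq_zero_iff (two_ne_zero) |>.1 h2
    simpa using h3

variable {u : Mt d}

lemma hs_unit_mul (hu : uᴴ * u = 1) (x : Mt d) : hs (u * x) = hs x := by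
  rw [hs_eq, hs_eq, Matrix.conjTranspose_mul]
  congr 1
  calc xᴴ * uᴴ * (u * x) = xᴴ * (uᴴ * u) * x := by simp only [Matrix.mul_assoc]
    _ = _ := by rw [hu, Matrix.mul_one]

lemma hs_mul_unit (hu : uᴴ * u = 1) (x : Mt d) : hs (x * u) = hs x := by
  have hu' : u * uᴴ = 1 := mul_eq_one_comm.1 hu
  rw [hs_eq, hs_eq, Matrix.conjTranspose_mul]
  calc tr (uᴴ * xᴴ * (x * u)) = tr ((uᴴ * (xᴴ * x)) * u) := by simp only [Matrix.mul_assoc]
    _ = tr (u * (uᴴ * (xᴴ * x))) := tr_comm _ _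
    _ = tr ((u * uᴴ) * (xᴴ * x)) := by simp only [Matrix.mul_assoc]
    _ = _ := by rw [hu', Matrix.one_mul]

lemma hs_comm_eq (hu : uᴴ * u = 1) (y : Mt d) :
    hs (u * y - y * u) = 2 * hs y - 2 * tr (yᴴ * uᴴ * y * u) := by
  rw [hs_sub, hs_unit_mul hu, hs_mul_unit hu, Matrix.conjTranspose_mul]
  have : yᴴ * uᴴ * (y * u) = yᴴ * uᴴ * y * u := by simp only [Matrix.mul_assoc]
  rw [this]
  ring

lemma hs_comm_le (hu : uᴴ * u = 1) (y : Mt d) : hs (u * y - y * u) ≤ 4 * hs y := by
  have h1 := hs_add_le (u * y) (-(y * u))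
  rw [hs_neg, hs_unit_mul hu, hs_mul_unit hu, ← sub_eq_add_neg] at h1
  linarith

lemma tr_pos_form (c D : Mt d) : 0 ≤ tr ((cᴴ * c) * Dᴴ * (cᴴ * c) * D) := by
  have h : tr ((cᴴ * c) * Dᴴ * (cᴴ * c) * D) = hs (c * D * cᴴ) := by
    rw [hs_eq]
    calc tr ((cᴴ * c) * Dᴴ * (cᴴ * c) * D) = tr (cᴴ * (c * Dᴴ * cᴴ * c * D)) := by
          simp only [Matrix.mul_assoc]
      _ = tr ((c * Dᴴ * cᴴ * c * D) * cᴴ) := tr_comm _ _
      _ = tr ((c * D * cᴴ)ᴴ * (c * D * cᴴ)) := by
          rw [Matrix.conjTranspose_mul, Matrix.conjTranspose_mul,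
            Matrix.conjTranspose_conjTranspose]
          simp only [Matrix.mul_assoc]
  rw [h]
  exact hs_nonneg _

/-- the Araki-Yamagami inequality -/
lemma ay (hu : uᴴ * u = 1) {v a c q : Mt d} (hq : IsPr q) (hv : vᴴ * v = q) (ha : a = cᴴ * c)
    (hqa : q * a = a) :
    hs (v * a) = hs a ∧ hs (v * a * vᴴ) = hs a ∧
    hs (u * a - a * u) + hs (u * (v * a * vᴴ) - (v * a * vᴴ) * u) ≤
      2 * hs (u * (v * a) - (v * a) * u) := by
  have haa : aᴴ = a := by
    rw [ha, Matrix.conjTranspose_mul, Matrix.conjTranspose_conjTranspose]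
  have haq : a * q = a := by
    have := congrArg Matrix.conjTranspose hqa
    rwa [Matrix.conjTranspose_mul, hq.1, haa] at this
  have h1 : hs (v * a) = hs a := by
    rw [hs_eq, hs_eq, Matrix.conjTranspose_mul]
    congr 1
    calc aᴴ * vᴴ * (v * a) = aᴴ * ((vᴴ * v) * a) := by simp only [Matrix.mul_assoc]
      _ = _ := by rw [hv, hqa]
  have h2 : hs (v * a * vᴴ) = hs a := by
    rw [hs_eq, hs_eq, Matrix.conjTranspose_mul, Matrix.conjTranspose_mul,
      Matrix.conjTranspose_conjTranspose, haa]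
    calc tr (v * (a * vᴴ) * (v * a * vᴴ)) = tr (v * (a * ((vᴴ * v) * a) * vᴴ)) := by
          simp only [Matrix.mul_assoc]
      _ = tr ((a * ((vᴴ * v) * a) * vᴴ) * v) := tr_comm _ _
      _ = tr (a * (((vᴴ * v) * a) * (vᴴ * v))) := by simp only [Matrix.mul_assoc]
      _ = tr (a * a) := by rw [hv, hqa, haq]
  refine ⟨h1, h2, ?_⟩
  rw [hs_comm_eq hu, hs_comm_eq hu, hs_comm_eq hu, h1, h2]
  set z : Mt d := vᴴ * u * v with hz
  have hzs : zᴴ = vᴴ * uᴴ * v := by
    rw [hz, Matrix.conjTranspose_mul, Matrix.conjTranspose_mul,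
      Matrix.conjTranspose_conjTranspose, Matrix.mul_assoc]
  have e1 : tr ((v * a)ᴴ * uᴴ * (v * a) * u) = tr (a * zᴴ * a * u) := by
    rw [Matrix.conjTranspose_mul, haa, hzs]
    simp only [Matrix.mul_assoc]
  have e2 : tr (aᴴ * uᴴ * a * u) = tr (a * uᴴ * a * u) := by rw [haa]
  have e3 : tr ((v * a * vᴴ)ᴴ * uᴴ * (v * a * vᴴ) * u) = tr (a * zᴴ * a * z) := by
    rw [Matrix.conjTranspose_mul, Matrix.conjTranspose_mul,
      Matrix.conjTranspose_conjTranspose, haa, hzs, hz]
    calc tr (v * (a * vᴴ) * uᴴ * (v * a * vᴴ) * u) =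
          tr (v * (a * vᴴ * uᴴ * (v * a * vᴴ) * u)) := by simp only [Matrix.mul_assoc]
      _ = tr ((a * vᴴ * uᴴ * (v * a * vᴴ) * u) * v) := tr_comm _ _
      _ = _ := by simp only [Matrix.mul_assoc]
  have e4 : tr (a * uᴴ * a * z) = tr (a * zᴴ * a * u) := by
    rw [← tr_star (a * uᴴ * a * z)]
    simp only [Matrix.conjTranspose_mul, Matrix.conjTranspose_conjTranspose, haa]
    calc tr (zᴴ * (a * (u * a))) = tr ((zᴴ * a * u) * a) := by simp only [Matrix.mul_assoc]
      _ = tr (a * (zᴴ * a * u)) := tr_comm _ _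
      _ = _ := by simp only [Matrix.mul_assoc]
  have h5 := tr_pos_form c (u - z)
  rw [← ha, Matrix.conjTranspose_sub] at h5
  have e5 : tr (a * (uᴴ - zᴴ) * a * (u - z)) =
      tr (a * uᴴ * a * u) - tr (a * uᴴ * a * z) - tr (a * zᴴ * a * u) + tr (a * zᴴ * a * z) := by
    rw [Matrix.mul_sub, Matrix.mul_sub, Matrix.sub_mul, Matrix.sub_mul, Matrix.sub_mul, tr_sub,
      tr_sub, tr_sub]
    ring
  rw [e5, e4] at h5
  rw [e1, e2, e3]
  linarith

lemma gap_real {q a : Mt d} (hq : IsPr q) (hr : 0 < tr q) (haa : aᴴ = a) (hqa : q * a = a)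
    (m : ℂ) {B : ℝ} (h : hs (a - m • q) ≤ B) : hs a * tr q - (tr a) ^ 2 ≤ B * tr q := by
  have haq : a * q = a := by
    have := congrArg Matrix.conjTranspose hqa
    rwa [Matrix.conjTranspose_mul, hq.1, haa] at this
  have h1 : hs (m • q) = ‖m‖ ^ 2 * tr q := by
    rw [hs_smul, hs_eq, hq.1, hq.2]
  have h2 : tr (aᴴ * (m • q)) = m.re * tr a := by
    rw [haa, Matrix.mul_smul, haq]
    unfold tr
    rw [Matrix.trace_smul, smul_eq_mul, Complex.mul_re]
    have him : (Matrix.trace a).im = 0 := by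
      have h3 := Matrix.trace_conjTranspose a
      rw [haa] at h3
      have h4 := congrArg Complex.im h3
      have h5 : (star (Matrix.trace a)).im = - (Matrix.trace a).im := rfl
      rw [h5] at h4
      linarith
    rw [him]
    ring
  rw [hs_sub, h1, h2] at h
  have h3 : m.re ^ 2 ≤ ‖m‖ ^ 2 := by
    rw [← Complex.normSq_eq_norm_sq, Complex.normSq_apply]
    nlinarith [sq_nonneg m.im]
  have h4 : m.re ^ 2 * tr q ≤ ‖m‖ ^ 2 * tr q := by gcongr
  have h5 : (hs a + m.re ^ 2 * tr q - 2 * (m.re * tr a)) * tr q ≤ B * tr q := by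
    apply mul_le_mul_of_nonneg_right _ hr.le
    linarith
  nlinarith [sq_nonneg (m.re * tr q - tr a)]

lemma best_real {q a : Mt d} (hq : IsPr q) (hr : 0 < tr q) (haa : aᴴ = a) (hqa : q * a = a) :
    hs (a - ((tr a / tr q : ℝ) : ℂ) • q) * tr q = hs a * tr q - (tr a) ^ 2 := by
  have haq : a * q = a := by
    have := congrArg Matrix.conjTranspose hqa
    rwa [Matrix.conjTranspose_mul, hq.1, haa] at this
  have h1 : hs (((tr a / tr q : ℝ) : ℂ) • q) = (tr a / tr q) ^ 2 * tr q := by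
    rw [hs_smul, hs_eq, hq.1, hq.2, Complex.norm_real, Real.norm_eq_abs, sq_abs]
  have h2 : tr (aᴴ * (((tr a / tr q : ℝ) : ℂ) • q)) = (tr a / tr q) * tr a := by
    rw [haa, Matrix.mul_smul, haq, tr_smul]
  rw [hs_sub, h1, h2]
  field_simp
  ring

end basics

theorem main : PolP := by
  intro d k u C2 ζ τ q q' x hu hq hq' hr hrr hC2 hζ hτ hG hG' hx hx0 hen hσ
  obtain ⟨v, a, c, hv, hqv, hac, hqa, hva⟩ := polar x q q' hq hq' hx hrr
  set σ : ℝ := C2 * (2 * τ + ζ) with hσd
  have hσ0 : 0 ≤ σ := by positivity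
  have haa : aᴴ = a := by
    rw [hac, Matrix.conjTranspose_mul, Matrix.conjTranspose_conjTranspose]
  have haq : a * q = a := by
    have := congrArg Matrix.conjTranspose hqa
    rwa [Matrix.conjTranspose_mul, hq.1, haa] at this
  have hH : 0 < hs x := hs_pos hx0
  have hvq : v * q = v := by
    have h1 : hs (v - v * q) = 0 := by
      rw [hs_eq, Matrix.conjTranspose_sub, Matrix.conjTranspose_mul, hq.1]
      have h2 : (vᴴ - q * vᴴ) * (v - v * q) =
          vᴴ * v - (vᴴ * v) * q - (q * (vᴴ * v) - q * (vᴴ * v) * q) := by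
        rw [Matrix.sub_mul, Matrix.mul_sub, Matrix.mul_sub]
        simp only [Matrix.mul_assoc]
      rw [h2, hv, hq.2, hq.2, sub_self]
      unfold tr
      simp
    by_contra hne
    have h3 : v - v * q ≠ 0 := by
      intro h
      exact hne (sub_eq_zero.1 h).symm
    have := hs_pos h3
    linarith
  -- energies
  have hen_nonneg : ∀ y : Mt d, 0 ≤ en u y := fun y =>
    Finset.sum_nonneg fun s _ => hs_nonneg _
  set a' : Mt d := v * a * vᴴ with ha'
  have hay : en u a + en u a' ≤ 2 * en u x := by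
    unfold en
    rw [← Finset.sum_add_distrib, Finset.mul_sum]
    apply Finset.sum_le_sum
    intro s _
    have := (ay (hu s) hq hv hac hqa).2.2
    rw [← ha', hva] at this
    exact this
  have hsa : hs a = hs x := by
    rcases isEmpty_or_nonempty (Fin k) with hk | hk
    · have h1 := (ay (u := (1 : Mt d)) (by simp) hq hv hac hqa).1
      rw [hva] at h1
      exact h1.symm
    · have h1 := (ay (u := (1 : Mt d)) (by simp) hq hv hac hqa).1
      rw [hva] at h1
      exact h1.symm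
  have hsa' : hs a' = hs x := by
    have h1 := (ay (u := (1 : Mt d)) (by simp) hq hv hac hqa).2.1
    rw [ha', h1, hsa]
  have hea : en u a ≤ 2 * τ * hs x := by
    have := hen_nonneg a'
    linarith
  have hea' : en u a' ≤ 2 * τ * hs x := by
    have := hen_nonneg a
    linarith
  have ha's : a'ᴴ = a' := by
    rw [ha', Matrix.conjTranspose_mul, Matrix.conjTranspose_mul,
      Matrix.conjTranspose_conjTranspose, haa, Matrix.mul_assoc]
  have hq'a' : q' * a' = a' := by
    rw [ha', ← Matrix.mul_assoc, ← Matrix.mul_assoc, hqv]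
  have ha'q' : a' * q' = a' := by
    have := congrArg Matrix.conjTranspose hq'a'
    rwa [Matrix.conjTranspose_mul, hq'.1, ha's] at this
  have htr' : tr a' = tr a := by
    rw [ha', tr_comm, ← Matrix.mul_assoc, hv, hqa]
  have hr' : 0 < tr q' := by linarith
  -- gaps
  obtain ⟨m, hm⟩ := hG a (by rw [hqa, haq])
  obtain ⟨m', hm'⟩ := hG' a' (by rw [hq'a', ha'q'])
  have hB : C2 * (en u a + ζ * hs a) ≤ σ * hs x := by
    rw [hsa, hσd]
    calc C2 * (en u a + ζ * hs x) ≤ C2 * (2 * τ * hs x + ζ * hs x) := by gcongr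
      _ = C2 * (2 * τ + ζ) * hs x := by ring
  have hB' : C2 * (en u a' + ζ * hs a') ≤ σ * hs x := by
    rw [hsa', hσd]
    calc C2 * (en u a' + ζ * hs x) ≤ C2 * (2 * τ * hs x + ζ * hs x) := by gcongr
      _ = C2 * (2 * τ + ζ) * hs x := by ring
  have g1 := gap_real hq hr haa hqa m (hm.trans hB)
  have g2 := gap_real hq' hr' ha's hq'a' m' (hm'.trans hB')
  have g3 := best_real hq hr haa hqa
  set H := hs x with hHd
  set t := tr a with ht
  set r := tr q with hrd
  set r' := tr q' with hr'd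
  rw [hsa] at g1 g3
  rw [hsa', htr'] at g2
  set m0 : ℝ := t / r with hm0
  have hnn := hs_nonneg (a - ((m0 : ℝ) : ℂ) • q)
  have g4 : t ^ 2 ≤ H * r := by nlinarith
  have g5 : (1 - σ) * r' ≤ r := by
    have h1 : (1 - σ) * r' * H ≤ r * H := by nlinarith
    exact le_of_mul_le_mul_right h1 hH
  refine ⟨v, hv, hqv, ?_, ?_⟩
  · nlinarith [mul_nonneg hσ0 (sub_nonneg.2 hσ), mul_nonneg hσ0 hr'.le]
  · -- the energy of v
    have e1 : hs (x - ((m0 : ℝ) : ℂ) • v) = hs (a - ((m0 : ℝ) : ℂ) • q) := by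
      have h1 : x - ((m0 : ℝ) : ℂ) • v = v * (a - ((m0 : ℝ) : ℂ) • q) := by
        rw [Matrix.mul_sub, hva, Matrix.mul_smul, hvq]
      rw [h1, hs_eq, hs_eq, Matrix.conjTranspose_mul]
      congr 1
      calc (a - ((m0 : ℝ) : ℂ) • q)ᴴ * vᴴ * (v * (a - ((m0 : ℝ) : ℂ) • q)) =
          (a - ((m0 : ℝ) : ℂ) • q)ᴴ * ((vᴴ * v) * (a - ((m0 : ℝ) : ℂ) • q)) := by
            simp only [Matrix.mul_assoc]
        _ = _ := by rw [hv, Matrix.mul_sub, hqa, Matrix.mul_smul, hq.2]
    have e2 : hs (a - ((m0 : ℝ) : ℂ) • q) ≤ σ * H := by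
      have h1 : hs (a - ((m0 : ℝ) : ℂ) • q) * r ≤ (σ * H) * r := by
        rw [g3]; exact g1
      exact le_of_mul_le_mul_right h1 hr
    have e3 : m0 ^ 2 * en u v ≤ 2 * en u x + 2 * (4 * k * (σ * H)) := by
      have h1 : m0 ^ 2 * en u v = en u (((m0 : ℝ) : ℂ) • v) := by
        unfold en
        rw [Finset.mul_sum]
        apply Finset.sum_congr rfl
        intro s _
        rw [Matrix.mul_smul, Matrix.smul_mul, ← smul_sub, hs_smul, Complex.norm_real,
          Real.norm_eq_abs, sq_abs]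
      rw [h1]
      unfold en
      calc ∑ s, hs (u s * ((m0 : ℝ) : ℂ) • v - ((m0 : ℝ) : ℂ) • v * u s) ≤
          ∑ s, (2 * hs (u s * x - x * u s) + 2 * (4 * (σ * H))) := by
            apply Finset.sum_le_sum
            intro s _
            have h2 : u s * ((m0 : ℝ) : ℂ) • v - ((m0 : ℝ) : ℂ) • v * u s =
                (u s * x - x * u s) + (-(u s * (x - ((m0 : ℝ) : ℂ) • v) -
                  (x - ((m0 : ℝ) : ℂ) • v) * u s)) := by
              rw [Matrix.mul_sub, Matrix.sub_mul]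
              abel
            rw [h2]
            refine (hs_add_le _ _).trans ?_
            rw [hs_neg]
            have h3 := hs_comm_le (hu s) (x - ((m0 : ℝ) : ℂ) • v)
            rw [e1] at h3
            linarith
        _ = _ := by
            rw [Finset.sum_add_distrib, ← Finset.mul_sum, Finset.sum_const, Finset.card_univ,
              Fintype.card_fin, nsmul_eq_mul]
            ring
    have e4 : 3 / 4 * H ≤ m0 ^ 2 * r := by
      have h1 : m0 ^ 2 * r = t ^ 2 / r := by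
        rw [hm0]
        field_simp
      rw [h1, le_div_iff₀ hr]
      nlinarith [mul_pos hH hr]
    have hev := hen_nonneg v
    have e5 : 3 / 4 * H * en u v ≤ (2 * τ * H + 8 * k * (σ * H)) * r := by
      calc 3 / 4 * H * en u v ≤ m0 ^ 2 * r * en u v := by gcongr
        _ = (m0 ^ 2 * en u v) * r := by ring
        _ ≤ (2 * en u x + 2 * (4 * k * (σ * H))) * r := by gcongr
        _ ≤ (2 * (τ * H) + 2 * (4 * k * (σ * H))) * r := by gcongr
        _ = _ := by ring
    have e6 : 3 / 4 * en u v ≤ (2 * τ + 8 * k * σ) * r := by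
      have h1 : 3 / 4 * en u v * H ≤ (2 * τ + 8 * k * σ) * r * H := by
        linarith [e5]
      exact le_of_mul_le_mul_right h1 hH
    have hk0 : (0 : ℝ) ≤ k := Nat.cast_nonneg k
    have e7 : 0 ≤ τ * r := by positivity
    have e8 : 0 ≤ (k : ℝ) * σ * r := by positivity
    nlinarith

end Pool.Agent.W494.RC
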