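import Pool.Agent.W494.RC.Ext

/-!
# RC-POL, part 2: polar decomposition between two projections
-/

set_option autoImplicit false

namespace Pool.Agent.W494.RC

open Matrix Pool.Agent.W661.RC
open scoped ComplexOrder

/-- the columns of a matrix with vanishing diagonal entry of the Gram matrix -/
lemma gram_zero {d : ℕ} (z : Mt d) (i : Fin d) (h : (zᴴ * z) i i = 0) : ∀ k, z k i = 0 := by
  rw [Matrix.mul_apply] at h
  have h1 : ∑ k, (Complex.normSq (z k i)) = 0 := by
    have h2 : ((∑ k, Complex.normSq (z k i) : ℝ) : ℂ) = 0 := by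
      rw [← h]
      push_cast
      apply Finset.sum_congr rfl
      intro k _
      rw [Matrix.conjTranspose_apply, Complex.normSq_eq_conj_mul_self]
      rfl
    exact_mod_cast h2
  intro k
  have h3 := (Finset.sum_eq_zero_iff_of_nonneg (fun k _ => Complex.normSq_nonneg (z k i))).1 h1 k
    (Finset.mem_univ k)
  exact Complex.normSq_eq_zero.1 h3

lemma gram_re_nonneg {d : ℕ} (z : Mt d) (i : Fin d) : 0 ≤ ((zᴴ * z) i i).re := by
  rw [Matrix.mul_apply]
  have : (∑ k, zᴴ i k * z k i) = ((∑ k, Complex.normSq (z k i) : ℝ) : ℂ) := by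
    push_cast
    apply Finset.sum_congr rfl
    intro k _
    rw [Matrix.conjTranspose_apply, Complex.normSq_eq_conj_mul_self]
    rfl
  rw [this, Complex.ofReal_re]
  exact Finset.sum_nonneg fun k _ => Complex.normSq_nonneg _

lemma gram_im {d : ℕ} (z : Mt d) (i : Fin d) : ((zᴴ * z) i i).im = 0 := by
  rw [Matrix.mul_apply]
  have : (∑ k, zᴴ i k * z k i) = ((∑ k, Complex.normSq (z k i) : ℝ) : ℂ) := by
    push_cast
    apply Finset.sum_congr rfl
    intro k _
    rw [Matrix.conjTranspose_apply, Complex.normSq_eq_conj_mul_self]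
    rfl
  rw [this, Complex.ofReal_im]

lemma polar {d : ℕ} (x q q' : Mt d) (hq : IsPr q) (hq' : IsPr q') (hx : q' * x * q = x)
    (hc : tr q ≤ tr q') :
    ∃ v a c : Mt d, vᴴ * v = q ∧ q' * v = v ∧ a = cᴴ * c ∧ q * a = a ∧ v * a = x := by
  classical
  obtain ⟨hqa, hqb⟩ := hq
  have hxq : x * q = x := by
    calc x * q = q' * x * q * q := by rw [hx]
      _ = q' * x * (q * q) := by rw [Matrix.mul_assoc (q' * x)]
      _ = x := by rw [hqb, hx]
  have hqx : q' * x = x := by
    calc q' * x = q' * (q' * x * q) := by rw [hx]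
      _ = (q' * q') * x * q := by simp only [Matrix.mul_assoc]
      _ = x := by rw [hq'.2, hx]
  have hqxx : q * (xᴴ * x) = xᴴ * x := by
    have h1 : q * xᴴ = xᴴ := by
      have := congrArg Matrix.conjTranspose hxq
      rwa [Matrix.conjTranspose_mul, hqa] at this
    rw [← Matrix.mul_assoc, h1]
  set M : Mt d := xᴴ * x + q with hM
  have hMh : M.IsHermitian := by
    unfold Matrix.IsHermitian
    rw [hM, Matrix.conjTranspose_add, Matrix.conjTranspose_mul, Matrix.conjTranspose_conjTranspose,
      hqa]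
  set U : Mt d := (hMh.eigenvectorUnitary : Mt d) with hU
  set μ : Fin d → ℝ := hMh.eigenvalues with hμ
  have hU1 : Uᴴ * U = 1 := by
    have := (Matrix.mem_unitaryGroup_iff'.1 hMh.eigenvectorUnitary.2)
    exact this
  have hU2 : U * Uᴴ = 1 := by
    have := (Matrix.mem_unitaryGroup_iff.1 hMh.eigenvectorUnitary.2)
    exact this
  have hsp : M = U * Matrix.diagonal (fun i => (μ i : ℂ)) * Uᴴ := by
    have := hMh.spectral_theorem
    rw [Unitary.conjStarAlgAut_apply] at this
    exact this
  have hUM : Uᴴ * M * U = Matrix.diagonal (fun i => (μ i : ℂ)) := by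
    rw [hsp]
    calc Uᴴ * (U * Matrix.diagonal (fun i => (μ i : ℂ)) * Uᴴ) * U =
        (Uᴴ * U) * Matrix.diagonal (fun i => (μ i : ℂ)) * (Uᴴ * U) := by
          simp only [Matrix.mul_assoc]
      _ = _ := by rw [hU1, Matrix.one_mul, Matrix.mul_one]
  set P : Mt d := Uᴴ * q * U with hP
  set A : Finset (Fin d) := Finset.univ.filter fun i => μ i ≠ 0 with hA
  have hPP : (q * U)ᴴ * (q * U) = P := by
    rw [Matrix.conjTranspose_mul, hqa, hP]
    calc Uᴴ * q * (q * U) = Uᴴ * (q * q) * U := by simp only [Matrix.mul_assoc]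
      _ = _ := by rw [hqb]
  have hPμ : P * Matrix.diagonal (fun i => (μ i : ℂ)) = Matrix.diagonal (fun i => (μ i : ℂ)) := by
    rw [← hUM, hP]
    calc Uᴴ * q * U * (Uᴴ * M * U) = Uᴴ * q * (U * Uᴴ) * M * U := by simp only [Matrix.mul_assoc]
      _ = Uᴴ * (q * M) * U := by rw [hU2, Matrix.mul_one]; simp only [Matrix.mul_assoc]
      _ = Uᴴ * M * U := by
        congr 2
        rw [hM, Matrix.mul_add, hqxx, hqb]
  have hsum : Uᴴ * (xᴴ * x) * U + P = Matrix.diagonal (fun i => (μ i : ℂ)) := by
    rw [← hUM, hP, hM, Matrix.mul_add, Matrix.add_mul]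
  have hy : (x * U)ᴴ * (x * U) = Uᴴ * (xᴴ * x) * U := by
    rw [Matrix.conjTranspose_mul]
    simp only [Matrix.mul_assoc]
  have hPd : P = Matrix.diagonal (fun i => if i ∈ A then (1 : ℂ) else 0) := by
    have h1 : ∀ i j, μ j ≠ 0 → P i j = if i = j then 1 else 0 := by
      intro i j hj
      have h2 := congrFun (congrFun hPμ i) j
      rw [Matrix.mul_diagonal, Matrix.diagonal_apply] at h2
      have h3 : (μ j : ℂ) ≠ 0 := by exact_mod_cast hj
      split_ifs at h2 ⊢ with hij
      · subst hij
        exact mul_right_cancel₀ h3 (by rw [h2, one_mul])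
      · exact (mul_eq_zero.1 h2).resolve_right h3
    have h4 : ∀ i j, μ j = 0 → P i j = 0 := by
      intro i j hj
      have h5 := congrFun (congrFun hsum j) j
      rw [Matrix.add_apply, Matrix.diagonal_apply_eq, hj] at h5
      have h6 : (P j j).re = 0 := by
        have h7 := congrArg Complex.re h5
        rw [Complex.add_re, Complex.ofReal_zero, Complex.zero_re, ← hy, ← hPP] at h7
        have h8 := gram_re_nonneg (x * U) j
        have h9 := gram_re_nonneg (q * U) j
        rw [← hPP]
        linarith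
      have h10 : P j j = 0 := by
        apply Complex.ext
        · rw [h6]; rfl
        · rw [← hPP]
          rw [gram_im]; rfl
      have h11 := gram_zero (q * U) j (by rw [hPP]; exact h10)
      rw [← hPP, Matrix.mul_apply]
      apply Finset.sum_eq_zero
      intro k _
      rw [h11 k, mul_zero]
    ext i j
    by_cases hj : μ j = 0
    · rw [h4 i j hj, Matrix.diagonal_apply]
      have : j ∉ A := by simp [hA, hj]
      split_ifs with hij
      · subst hij; contradiction
      · rfl
      · rfl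
    · rw [h1 i j hj, Matrix.diagonal_apply]
      have : j ∈ A := by simp [hA, hj]
      split_ifs with hij
      · rfl
      · subst hij; contradiction
      · rfl
  set lam : Fin d → ℝ := fun i => μ i - if i ∈ A then 1 else 0 with hlam
  have hyd : (x * U)ᴴ * (x * U) = Matrix.diagonal (fun i => (lam i : ℂ)) := by
    have h1 : Uᴴ * (xᴴ * x) * U = Matrix.diagonal (fun i => (μ i : ℂ)) - P := by
      rw [← hsum, add_sub_cancel_right]
    rw [hy, h1, hPd, Matrix.diagonal_sub]
    congr 1
    funext i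
    simp only [hlam]
    split_ifs <;> push_cast <;> ring
  have hlam0 : ∀ i, 0 ≤ lam i := by
    intro i
    have h1 := gram_re_nonneg (x * U) i
    rw [hyd, Matrix.diagonal_apply_eq, Complex.ofReal_re] at h1
    exact h1
  have hlamA : ∀ i, lam i ≠ 0 → i ∈ A := by
    intro i hi
    by_contra hcon
    apply hi
    simp only [hlam]
    rw [if_neg hcon]
    have : μ i = 0 := by
      by_contra h
      exact hcon (by simp [hA, h])
    rw [this, sub_zero]
  have hcA : (A.card : ℝ) = tr q := by
    have h1 : Matrix.trace P = Matrix.trace q := by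
      rw [hP, Matrix.trace_mul_comm, ← Matrix.mul_assoc, hU2, Matrix.one_mul]
    unfold tr
    rw [← h1, hPd, Matrix.trace_diagonal]
    simp
  obtain ⟨W, hW1, hW2, hW3⟩ := ext_cols q' (x * U) hq' lam hlam0 hyd A hlamA (by rw [hcA]; exact hc)
    (by rw [← Matrix.mul_assoc, hqx])
  refine ⟨W * Uᴴ, U * Matrix.diagonal (fun i => ((Real.sqrt (lam i) : ℝ) : ℂ)) * Uᴴ,
    Matrix.diagonal (fun i => ((Real.sqrt (Real.sqrt (lam i)) : ℝ) : ℂ)) * Uᴴ, ?_, ?_, ?_, ?_, ?_⟩
  · rw [Matrix.conjTranspose_mul, Matrix.conjTranspose_conjTranspose]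
    calc U * Wᴴ * (W * Uᴴ) = U * (Wᴴ * W) * Uᴴ := by simp only [Matrix.mul_assoc]
      _ = U * P * Uᴴ := by rw [hW1, hPd]
      _ = (U * Uᴴ) * q * (U * Uᴴ) := by rw [hP]; simp only [Matrix.mul_assoc]
      _ = q := by rw [hU2, Matrix.one_mul, Matrix.mul_one]
  · rw [← Matrix.mul_assoc, hW2]
  · rw [Matrix.conjTranspose_mul, Matrix.conjTranspose_conjTranspose, Matrix.diagonal_conjTranspose]
    have h1 : Matrix.diagonal (star fun i => ((Real.sqrt (Real.sqrt (lam i)) : ℝ) : ℂ)) *
        Matrix.diagonal (fun i => ((Real.sqrt (Real.sqrt (lam i)) : ℝ) : ℂ)) =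
        Matrix.diagonal (fun i => ((Real.sqrt (lam i) : ℝ) : ℂ)) := by
      rw [Matrix.diagonal_mul_diagonal]
      congr 1
      funext i
      rw [Pi.star_apply]
      have h2 : star (((Real.sqrt (Real.sqrt (lam i)) : ℝ) : ℂ)) =
          ((Real.sqrt (Real.sqrt (lam i)) : ℝ) : ℂ) := Complex.conj_ofReal _
      rw [h2]
      have h3 := Real.mul_self_sqrt (Real.sqrt_nonneg (lam i))
      exact_mod_cast h3
    rw [← h1]
    simp only [Matrix.mul_assoc]
  · have h1 : P * Matrix.diagonal (fun i => ((Real.sqrt (lam i) : ℝ) : ℂ)) =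
        Matrix.diagonal (fun i => ((Real.sqrt (lam i) : ℝ) : ℂ)) := by
      rw [hPd, Matrix.diagonal_mul_diagonal]
      congr 1
      funext i
      split_ifs with hi
      · rw [one_mul]
      · have : lam i = 0 := by
          by_contra h
          exact hi (hlamA i h)
        rw [this]
        simp
    have h2 : U * P = q * U := by
      rw [hP]
      calc U * (Uᴴ * q * U) = (U * Uᴴ) * q * U := by simp only [Matrix.mul_assoc]
        _ = q * U := by rw [hU2, Matrix.one_mul]
    calc q * (U * Matrix.diagonal (fun i => ((Real.sqrt (lam i) : ℝ) : ℂ)) * Uᴴ) =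
          (q * U) * Matrix.diagonal (fun i => ((Real.sqrt (lam i) : ℝ) : ℂ)) * Uᴴ := by
          simp only [Matrix.mul_assoc]
      _ = U * (P * Matrix.diagonal (fun i => ((Real.sqrt (lam i) : ℝ) : ℂ))) * Uᴴ := by
          rw [← h2]; simp only [Matrix.mul_assoc]
      _ = _ := by rw [h1]
  · calc W * Uᴴ * (U * Matrix.diagonal (fun i => ((Real.sqrt (lam i) : ℝ) : ℂ)) * Uᴴ) =
          W * (Uᴴ * U) * Matrix.diagonal (fun i => ((Real.sqrt (lam i) : ℝ) : ℂ)) * Uᴴ := by
          simp only [Matrix.mul_assoc]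
      _ = (W * Matrix.diagonal (fun i => ((Real.sqrt (lam i) : ℝ) : ℂ))) * Uᴴ := by
          rw [hU1, Matrix.mul_one]
      _ = x * (U * Uᴴ) := by rw [hW3, Matrix.mul_assoc]
      _ = x := by rw [hU2, Matrix.mul_one]

end Pool.Agent.W494.RC
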